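import Pool.Agent.U590.WS.Final
import Pool.Agent.U590.WS.Contract

/-!
# Weak versus strong closure of homeomorphisms: the equality fails for all `n ≥ 3`, `1 ≤ p < ∞`

The target `Ω'` is a box with infinitely many thinner and thinner oscillating tentacles attached to
one of its faces, accumulating at a segment `σ`; the source `Ω` is the box with the corresponding
straight tentacles and one extra fat tentacle `T₀`. A sequence of homeomorphisms of `Ω` onto `Ω'`
with locally uniformly bounded Lipschitz constants sends the fat tentacle into the `k`-th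
oscillating one (shifting the following ones), by a twist of the face of the box. The
limit `f` maps `T₀` onto the straight segment `σ`. It is a weak limit in every `W^{1,p}`, but not a
strong one: a homeomorphism of `Ω` onto `Ω'` which is close to `f` on `T₀` maps almost every line
of `T₀` to a path which climbs along one of the oscillating tentacles, and hence has a
definite variation in the direction orthogonal to `σ`.
-/

namespace Pool.Agent.Results.MP_a6162f_an.AllExponents

open Pool.Agent.U590.WS
open scoped ENNReal

/-- For every `n ≥ 3` there are bounded open contractible sets `Ω, Ω' ⊆ ℝⁿ` and a map `f` which is,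
for every `1 ≤ p < ∞`, a weak `W^{1,p}` limit, but not a strong `W^{1,p}` limit, of homeomorphisms
of `Ω` onto `Ω'`. -/
theorem result (n : ℕ) (hn : 3 ≤ n) :
    ∃ (Ω Ω' : Set (Eu n)) (f : Eu n → Eu n),
      IsOpen Ω ∧ Bornology.IsBounded Ω ∧ ContractibleSpace Ω ∧
      IsOpen Ω' ∧ Bornology.IsBounded Ω' ∧ ContractibleSpace Ω' ∧
      ∀ p : ℝ≥0∞, 1 ≤ p → p ≠ ⊤ → f ∈ weakClosure p Ω Ω' ∧ f ∉ strongClosure p Ω Ω' := by
  obtain ⟨m, rfl⟩ : ∃ m, n = m + 3 := ⟨n - 3, by omega⟩
  exact ⟨Om m, OmT m, f0 m, isOpen_Om, bdd_Om, contractible_Om, isOpen_OmT, bdd_OmT,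
    contractible_OmT, fun p hp _ => ⟨weak_part p, not_strong hp⟩⟩

end Pool.Agent.Results.MP_a6162f_an.AllExponents
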